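import Mathlib
import Pool.Agent.W307.RT.Box

/-!
# From the boxes to the curves, with a power of the logarithm (for part CRVK of project H)
-/

set_option autoImplicit false

namespace Pool.Agent.N380.H

open Finset Pool.Agent.W262.RK Pool.Agent.W307.RT

/-- from the box to the curves, for a general function of the curve, with a power of the
logarithm -/
lemma final_genE {m k : ℕ} (hk : 1 ≤ k) (hL : LOW m k) (C0' : ℕ) (F : ℤ × ℤ → ℤ × ℤ)
    (R g : ℤ × ℤ → ℝ) (hg : ∀ t, 0 ≤ g t)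
    (hF : ∀ H : ℕ, Set.InjOn F (Cv m H : Set (ℤ × ℤ)) ∧ ∀ c ∈ Cv m H,
      (F c).1.natAbs ^ k ≤ C0' * H ∧ (F c).2.natAbs ^ k ≤ C0' * H ∧ R c ≤ g (F c))
    (E : ℝ) (hE : 0 ≤ E)
    (hbox : ∃ C : ℝ, 0 ≤ C ∧ ∀ T : ℕ, 1 ≤ T →
      ∑ t ∈ Box T, g t ≤ C * ((T : ℝ) ^ 2 * (1 + Real.log T) ^ E)) :
    ∃ C : ℝ, 0 ≤ C ∧ ∀ H : ℕ, 1 ≤ H →
      ∑ c ∈ Cv m H, R c ≤ C * ((Cv m H).card * (1 + Real.log H) ^ E) := by
  classical
  obtain ⟨c, C1, T0, hc, hlow⟩ := hL
  obtain ⟨C, hC, hb⟩ := hbox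
  set C0 := C0' + 1 with hC0
  have hF' : ∀ H : ℕ, ∀ x ∈ Cv m H, (F x).1.natAbs ^ k ≤ C0 * H ∧ (F x).2.natAbs ^ k ≤ C0 * H := by
    intro H x hx
    obtain ⟨h1, h2, _⟩ := (hF H).2 x hx
    have : C0' * H ≤ C0 * H := Nat.mul_le_mul_right _ (by omega)
    exact ⟨h1.trans this, h2.trans this⟩
  set D := C0 * C1 + 1 with hD
  have hD1 : 1 ≤ D := by omega
  have hsum : ∀ H T : ℕ, 1 ≤ T → (∀ x ∈ Cv m H, (F x).1.natAbs ≤ T ∧ (F x).2.natAbs ≤ T) →
      ∑ x ∈ Cv m H, R x ≤ C * ((T : ℝ) ^ 2 * (1 + Real.log T) ^ E) := by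
    intro H T hT hx
    refine le_trans ?_ (hb T hT)
    obtain ⟨hinj, h2⟩ := hF H
    have h3 : ∑ x ∈ Cv m H, R x ≤ ∑ t ∈ (Cv m H).image F, g t := by
      rw [sum_image hinj]
      exact sum_le_sum fun x hx' => (h2 x hx').2.2
    refine h3.trans (sum_le_sum_of_subset_of_nonneg ?_ fun t _ _ => hg t)
    intro t ht
    obtain ⟨x, hx', rfl⟩ := mem_image.1 ht
    rw [mem_Box]
    exact hx x hx'
  set T1 := D * (T0 + 1) with hT1
  have hT11 : 1 ≤ T1 := Nat.mul_pos hD1 (Nat.succ_pos _)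
  have hlog : ∀ n : ℕ, 1 ≤ n → 1 ≤ 1 + Real.log n := by
    intro n hn
    have : 0 ≤ Real.log n := Real.log_nonneg (by exact_mod_cast hn)
    linarith
  have hpow : ∀ n : ℕ, 1 ≤ n → 1 ≤ (1 + Real.log n) ^ E := fun n hn =>
    Real.one_le_rpow (hlog n hn) hE
  have hC01 : 1 ≤ C0 := by omega
  refine ⟨C * ((T1 : ℝ) ^ 2 * (1 + Real.log T1) ^ E) +
    C * (2 * (D : ℝ)) ^ 2 / c * (1 + Real.log C0) ^ E, ?_, fun H hH => ?_⟩
  · have := hpow T1 hT11
    have := hpow C0 hC01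
    positivity
  set K := (Cv m H).card with hK
  by_cases hK0 : K = 0
  · have : Cv m H = ∅ := card_eq_zero.1 hK0
    rw [this, sum_empty, hK0]
    simp
  have hK1 : (1 : ℝ) ≤ K := by exact_mod_cast Nat.one_le_iff_ne_zero.2 hK0
  have hA0 : 0 ≤ C * ((T1 : ℝ) ^ 2 * (1 + Real.log T1) ^ E) := by
    have := hpow T1 hT11
    positivity
  have hq0 : 0 ≤ C * (2 * (D : ℝ)) ^ 2 / c := by positivity
  have hB0 : 0 ≤ C * (2 * (D : ℝ)) ^ 2 / c * (1 + Real.log C0) ^ E := by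
    have := hpow C0 hC01
    positivity
  have hH1 := hpow H hH
  have hKH : 1 ≤ (K : ℝ) * (1 + Real.log H) ^ E := by nlinarith
  set T := Nat.findGreatest (fun t => t ^ k ≤ C0 * H) (C0 * H) with hT
  have hle : ∀ x : ℕ, x ^ k ≤ C0 * H → x ≤ T := by
    intro x hx
    apply Nat.le_findGreatest
    · exact (Nat.le_self_pow (by omega) x).trans hx
    · exact hx
  have hTk : T ^ k ≤ C0 * H := by
    have : (fun t => t ^ k ≤ C0 * H) T :=
      Nat.findGreatest_spec (P := fun t => t ^ k ≤ C0 * H) (Nat.zero_le _)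
        (by rw [zero_pow (by omega)]; exact Nat.zero_le _)
    exact this
  have hxT : ∀ x ∈ Cv m H, (F x).1.natAbs ≤ T ∧ (F x).2.natAbs ≤ T := fun x hx =>
    ⟨hle _ (hF' H x hx).1, hle _ (hF' H x hx).2⟩
  rcases Nat.lt_or_ge T T1 with hlt | hge
  · have h1 := hsum H T1 hT11 fun x hx =>
      ⟨(hxT x hx).1.trans hlt.le, (hxT x hx).2.trans hlt.le⟩
    calc _ ≤ C * ((T1 : ℝ) ^ 2 * (1 + Real.log T1) ^ E) := h1
      _ ≤ C * ((T1 : ℝ) ^ 2 * (1 + Real.log T1) ^ E) * (K * (1 + Real.log H) ^ E) :=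
        le_mul_of_one_le_right hA0 hKH
      _ ≤ _ := by
        apply mul_le_mul_of_nonneg_right _ (by linarith)
        linarith
  · have hT1' : 1 ≤ T := hT11.trans hge
    have h1 := hsum H T hT1' hxT
    set T' := T / D with hT'
    have hT'0 : T0 + 1 ≤ T' := by
      rw [hT', Nat.le_div_iff_mul_le hD1, mul_comm]
      exact hge
    have h2 : T' * D ≤ T := Nat.div_mul_le_self T D
    have h3 : C1 * T' ^ k ≤ H := by
      have a1 : (T' * D) ^ k ≤ C0 * H := (Nat.pow_le_pow_left h2 k).trans hTk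
      rw [mul_pow] at a1
      have a2 : D ≤ D ^ k := Nat.le_self_pow (by omega) D
      have a3 : T' ^ k * (C0 * C1) ≤ C0 * H :=
        (Nat.mul_le_mul_left _ (by omega : C0 * C1 ≤ D ^ k)).trans a1
      have a4 : C0 * (C1 * T' ^ k) ≤ C0 * H := by
        calc C0 * (C1 * T' ^ k) = T' ^ k * (C0 * C1) := by ring
          _ ≤ _ := a3
      exact Nat.le_of_mul_le_mul_left a4 (by omega)
    have h4 := hlow T' H (by omega) h3
    have h5 : T ≤ 2 * D * T' := by
      have a1 : T < D * (T' + 1) := by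
        rw [mul_comm]
        exact Nat.lt_mul_of_div_lt (by rw [← hT']; omega) hD1
      have a2 : D * (T' + 1) ≤ 2 * D * T' := by nlinarith
      omega
    have h6 : (T : ℝ) ≤ 2 * D * T' := by exact_mod_cast h5
    have h7 : (1 + Real.log T) ^ E ≤ (1 + Real.log C0) ^ E * (1 + Real.log H) ^ E := by
      have b1 : T ≤ C0 * H := (Nat.le_self_pow (by omega) T).trans hTk
      have b2 : Real.log T ≤ Real.log C0 + Real.log H := by
        rw [← Real.log_mul (by positivity) (by positivity)]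
        apply Real.log_le_log (by positivity)
        exact_mod_cast b1
      have b3 := hlog C0 hC01
      have b4 := hlog H hH
      have b5 := hlog T hT1'
      rw [← Real.mul_rpow (by linarith) (by linarith)]
      apply Real.rpow_le_rpow (by linarith) _ hE
      nlinarith
    have h8 : (T : ℝ) ^ 2 ≤ (2 * (D : ℝ)) ^ 2 / c * K := by
      calc (T : ℝ) ^ 2 ≤ (2 * D * T') ^ 2 := pow_le_pow_left₀ (Nat.cast_nonneg T) h6 2
        _ = (2 * (D : ℝ)) ^ 2 / c * (c * (T' : ℝ) ^ 2) := by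
          field_simp
        _ ≤ _ := mul_le_mul_of_nonneg_left h4 (by positivity)
    have h9 := hpow T hT1'
    have h10 := hpow C0 hC01
    calc _ ≤ C * ((T : ℝ) ^ 2 * (1 + Real.log T) ^ E) := h1
      _ ≤ C * (((2 * (D : ℝ)) ^ 2 / c * K) *
          ((1 + Real.log C0) ^ E * (1 + Real.log H) ^ E)) := by
        apply mul_le_mul_of_nonneg_left _ hC
        exact mul_le_mul h8 h7 (by linarith) (by positivity)
      _ = C * (2 * (D : ℝ)) ^ 2 / c * (1 + Real.log C0) ^ E * (K * (1 + Real.log H) ^ E) := by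
        ring
      _ ≤ _ := by
        apply mul_le_mul_of_nonneg_right _ (by linarith)
        linarith

end Pool.Agent.N380.H
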