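import Mathlib
import Pool.Agent.W307.SE.Fin
import Pool.Agent.N380.H.Gen

/-!
# From the boxes to the curves, for the k-th powers of the order of the 2-Selmer group
-/

set_option autoImplicit false

namespace Pool.Agent.N380.H

open Finset Pool.Agent.W262.RK Pool.Agent.W307.RT Pool.Agent.W307.RS
open Pool.Agent.W307.SE (SN SN_nonneg sel_fin SelR PARX SELD SELC)

theorem crvk_core (m d k : ℕ) (E : ℝ) (M N : ℤ → ℤ → ℤ) (hd : 1 ≤ d) (hE : 0 ≤ E)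
    (hP : PARX m d M N) (hL : LOW m d) (hD : SELD) (hC : SELC)
    (hbox : ∃ C : ℝ, 0 ≤ C ∧ ∀ T : ℕ, 1 ≤ T → ∑ t ∈ (Box T).filter (fun t : ℤ × ℤ =>
      IsCoprime t.1 t.2 ∧ M t.1 t.2 ≠ 0 ∧ N t.1 t.2 ≠ 0 ∧ M t.1 t.2 ≠ N t.1 t.2),
      SN (-(M t.1 t.2)) (-(N t.1 t.2)) ^ k ≤ C * ((T : ℝ) ^ 2 * (1 + Real.log T) ^ E)) :
    ∃ C : ℝ, 0 ≤ C ∧ ∀ H : ℕ, 1 ≤ H → ∑ c ∈ Cv m H, ((SelR c.1 c.2).ncard : ℝ) ^ k ≤
      C * ((Cv m H).card * (1 + Real.log H) ^ E) := by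
  classical
  set P : ℤ × ℤ → Prop := fun t : ℤ × ℤ =>
    IsCoprime t.1 t.2 ∧ M t.1 t.2 ≠ 0 ∧ N t.1 t.2 ≠ 0 ∧ M t.1 t.2 ≠ N t.1 t.2 with hPdef
  set g : ℤ × ℤ → ℝ := fun t => if P t then SN (-(M t.1 t.2)) (-(N t.1 t.2)) ^ k else 0 with hg
  have hg0 : ∀ t, 0 ≤ g t := by
    intro t
    rw [hg]
    simp only
    split_ifs
    · exact pow_nonneg (SN_nonneg _ _) k
    · exact le_rfl
  obtain ⟨C0, F, hF⟩ := hP
  have key : ∀ H, ∀ c ∈ Cv m H, ((SelR c.1 c.2).ncard : ℝ) ^ k ≤ g (F c) := by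
    intro H c hc
    obtain ⟨h1, h2, h3, h4, _, _, e1, e2, e3, q, hq, hr, h5, h6⟩ := (hF H).2 c hc
    have hdisc : 4 * c.1 ^ 3 + 27 * c.2 ^ 2 ≠ 0 := by
      unfold Cv at hc
      exact (mem_filter.1 hc).2.1
    have hfin := sel_fin hD (A := -(M (F c).1 (F c).2)) (B := -(N (F c).1 (F c).2))
      (neg_ne_zero.2 h2) (neg_ne_zero.2 h3) (fun h => h4 (neg_injective h))
    obtain ⟨f1, f2⟩ := hC c.1 c.2 e1 e2 e3 (-(M (F c).1 (F c).2)) (-(N (F c).1 (F c).2)) q hdisc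
      hr hq (by rw [h5]; push_cast; ring) (by rw [h6]; push_cast; ring) hfin
    have hPt : P (F c) := ⟨h1, h2, h3, h4⟩
    have e : g (F c) = SN (-(M (F c).1 (F c).2)) (-(N (F c).1 (F c).2)) ^ k := by
      rw [hg]
      simp only
      rw [if_pos hPt]
    rw [e]
    apply pow_le_pow_left₀ (Nat.cast_nonneg _)
    unfold SN
    exact_mod_cast f2
  refine final_genE hd hL C0 F (fun c => ((SelR c.1 c.2).ncard : ℝ) ^ k) g hg0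
    (fun H => ⟨(hF H).1, fun c hc => ?_⟩) E hE ?_
  · obtain ⟨_, _, _, _, h5, h6, _⟩ := (hF H).2 c hc
    exact ⟨h5, h6, key H c hc⟩
  · obtain ⟨C, h0, h⟩ := hbox
    refine ⟨C, h0, fun T hT => le_trans (le_of_eq ?_) (h T hT)⟩
    rw [sum_filter]

end Pool.Agent.N380.H
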