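import Mathlib
import Pool.Agent.N870.H.Stm
import Pool.Agent.N380.H.Core

/-!
# Part CRVK of project H
-/

set_option autoImplicit false

namespace Pool.Agent.N380.H

theorem t_CRVK : Pool.Agent.N870.H.S_CRVK := by
  intro m d k E M N hd hE hP hL hD hC hbox
  exact crvk_core m d k E M N hd hE hP hL hD hC (by convert hbox)

end Pool.Agent.N380.H
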